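import Pool.Agent.DPL.StmtsA

set_option autoImplicit false

/-!
# DPL: row PRM (helper23)
-/

namespace Pool.Agent.DPL.H23

open Finset Pool.Agent.DPS Pool.Agent.DPL

/-- the cell of an element -/
def cell {n : ℕ} (F G : Finset (Fin n)) (x : Fin n) : Bool × Bool :=
  (decide (x ∈ F), decide (x ∈ G))

theorem cells {n k : ℕ} (F G F' G' : KS n k) (h : (F.1 ∩ G.1).card = (F'.1 ∩ G'.1).card)
    (b : Bool × Bool) : Fintype.card {x // cell F.1 G.1 x = b} =
      Fintype.card {x // cell F'.1 G'.1 x = b} := by
  have key : ∀ F G : KS n k, ∀ b : Bool × Bool, Fintype.card {x // cell F.1 G.1 x = b} =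
      (match b with
        | (true, true) => (F.1 ∩ G.1).card
        | (true, false) => k - (F.1 ∩ G.1).card
        | (false, true) => k - (F.1 ∩ G.1).card
        | (false, false) => n - (2 * k - (F.1 ∩ G.1).card)) := by
    intro F G b
    rw [Fintype.card_subtype]
    rcases b with ⟨b1, b2⟩
    cases b1 <;> cases b2
    · have h1 : (Finset.univ.filter fun x => cell F.1 G.1 x = (false, false)) = (F.1 ∪ G.1)ᶜ := by
        ext x; simp [cell]
      rw [h1, Finset.card_compl, Fintype.card_fin]
      have h2 := Finset.card_union_add_card_inter F.1 G.1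
      rw [F.2, G.2] at h2
      show n - (F.1 ∪ G.1).card = n - (2 * k - (F.1 ∩ G.1).card)
      omega
    · have h1 : (Finset.univ.filter fun x => cell F.1 G.1 x = (false, true)) = G.1 \ F.1 := by
        ext x; simp [cell, and_comm]
      rw [h1]
      have h2 := Finset.card_sdiff_add_card_inter G.1 F.1
      rw [G.2, Finset.inter_comm] at h2
      show (G.1 \ F.1).card = k - (F.1 ∩ G.1).card
      omega
    · have h1 : (Finset.univ.filter fun x => cell F.1 G.1 x = (true, false)) = F.1 \ G.1 := by
        ext x; simp [cell]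
      rw [h1]
      have h2 := Finset.card_sdiff_add_card_inter F.1 G.1
      rw [F.2] at h2
      show (F.1 \ G.1).card = k - (F.1 ∩ G.1).card
      omega
    · have h1 : (Finset.univ.filter fun x => cell F.1 G.1 x = (true, true)) = F.1 ∩ G.1 := by
        ext x; simp [cell]
      rw [h1]
  rw [key F G, key F' G', h]

theorem prm : PRMStmt := by
  intro n k F G F' G' h
  have he : ∀ b, Nonempty ({x // cell F.1 G.1 x = b} ≃ {x // cell F'.1 G'.1 x = b}) := fun b =>
    ⟨Fintype.equivOfCardEq (cells F G F' G' h b)⟩
  let σ : Equiv.Perm (Fin n) := Equiv.ofFiberEquiv (f := cell F.1 G.1) (g := cell F'.1 G'.1)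
    (fun b => (he b).some)
  have hσ : ∀ x, cell F'.1 G'.1 (σ x) = cell F.1 G.1 x := fun x =>
    Equiv.ofFiberEquiv_map (fun b => (he b).some) x
  refine ⟨σ, ?_, ?_⟩
  · ext x
    rw [Finset.mem_map_equiv]
    have h1 := hσ (σ.symm x)
    rw [Equiv.apply_symm_apply] at h1
    have h2 := congrArg Prod.fst h1
    simp only [cell, decide_eq_decide] at h2
    exact h2.symm
  · ext x
    rw [Finset.mem_map_equiv]
    have h1 := hσ (σ.symm x)
    rw [Equiv.apply_symm_apply] at h1
    have h2 := congrArg Prod.snd h1
    simp only [cell, decide_eq_decide] at h2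
    exact h2.symm

end Pool.Agent.DPL.H23
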