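import Pool.Agent.DPL.StmtsA
import Pool.Agent.Helper59_DPS.All

set_option autoImplicit false

/-!
# DPL: row CER (helper23)
-/

namespace Pool.Agent.DPL.H23

open Finset Polynomial Pool.Agent.DPS Pool.Agent.DPL

theorem cer : CERStmt := by
  intro n k t ht htk hn m α hα
  obtain ⟨Q, hQdef⟩ : ∃ Q : ℝ[X], Q = Lagrange.interpolate (Finset.Icc 1 t) (y n)
      (fun l => (m.eval (y n l) - α) / kap n k l) := ⟨_, rfl⟩
  have hQev : ∀ j, kap n k j * Q.eval (y n j) =
      ∑ l ∈ Finset.Icc 1 t, (m.eval (y n l) - α) * H33.EE n k t j l := by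
    intro j
    rw [hQdef]
    exact H33.eval_Q hn htk (fun l => m.eval (y n l)) α j
  have hQ : Q.natDegree < t := by
    have h1 := Lagrange.degree_interpolate_lt (s := Finset.Icc 1 t) (v := y n)
      (fun l => (m.eval (y n l) - α) / kap n k l) (H33.inj_y hn htk)
    rw [Nat.card_Icc, Nat.add_sub_cancel, ← hQdef] at h1
    rcases eq_or_ne Q 0 with h0 | h0
    · rw [h0, Polynomial.natDegree_zero]
      omega
    · exact (Polynomial.natDegree_lt_iff_degree_lt h0).2 h1
  obtain ⟨N, hN⟩ : ∃ N : ℝ[X], N = C α - m + Q * kp n k := ⟨_, rfl⟩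
  have hev : ∀ j, j ≤ k → N.eval (y n j) =
      α - m.eval (y n j) + kap n k j * Q.eval (y n j) := by
    intro j hj
    rw [hN, eval_add, eval_sub, eval_C, eval_mul, H88.kev H39.mev n k j hn hj]
    ring
  -- the low levels
  have h1 : ∀ j, j ≤ t → N.eval (y n j) = 0 := by
    intro j hj
    rw [hev j (by omega)]
    rcases Nat.eq_zero_or_pos j with h0 | h0
    · subst h0
      rw [hQev]
      have h2 : ∑ l ∈ Finset.Icc 1 t, (m.eval (y n l) - α) * H33.EE n k t 0 l =
          α * (∑ l ∈ Finset.Icc 1 t, cc n k t 0 l) -
            ∑ l ∈ Finset.Icc 1 t, cc n k t 0 l * m.eval (y n l) := by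
        rw [Finset.mul_sum, ← Finset.sum_sub_distrib]
        refine Finset.sum_congr rfl fun l hl => ?_
        rw [H33.EE_zero hn htk hl]
        ring
      rw [h2]
      unfold cs at hα
      linarith
    · have hjm : j ∈ Finset.Icc 1 t := Finset.mem_Icc.2 ⟨h0, hj⟩
      rw [hQdef, Lagrange.eval_interpolate_at_node _ (H33.inj_y hn htk) hjm]
      have h2 := H33.kap_ne (j := j) hn (by omega)
      rw [mul_div_cancel₀ _ h2]
      ring
  have hap : ∀ f : KS n k → ℝ, aeval (Y n k) N f =
      α • f - aeval (Y n k) m f + aeval (Y n k) Q (K n k f) := by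
    intro f
    rw [hN, map_add, map_sub, map_mul, aeval_C, LinearMap.add_apply, LinearMap.sub_apply,
      Module.End.mul_apply, H33.aeval_kp H59.mpo' H39.kna, Module.algebraMap_end_apply]
  have hip : ∀ B : Finset (KS n k), (∀ F ∈ B, ∀ G ∈ B, t ≤ (F.1 ∩ G.1).card) →
      ip (ind B) (aeval (Y n k) N (ind B)) =
        α * ip (ind B) (ind B) - ip (ind B) (aeval (Y n k) m (ind B)) := by
    intro B hB
    rw [hap, H33.ip_add, H33.ip_sub, H33.ip_smul, H88.sui H81.sup n k t Q B hQ hB, add_zero]
  refine ⟨?_, ?_⟩
  · intro T hT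
    have hdvd : (∏ l ∈ Finset.range (t + 1), (C (y n l) - X)) ∣ N := by
      refine Finset.prod_dvd_of_coprime ?_ ?_
      · intro a ha b hb hab
        rw [Finset.mem_coe, Finset.mem_range] at ha hb
        have hne : y n a ≠ y n b := by
          rcases Nat.lt_or_gt_of_ne hab with h | h
          · exact (H33.y_lt hn h (by omega)).ne
          · exact (H33.y_lt hn h (by omega)).ne'
        have h3 : IsCoprime (X - C (y n a)) (X - C (y n b)) :=
          Polynomial.isCoprime_X_sub_C_of_isUnit_sub (sub_ne_zero.2 hne).isUnit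
        have h4 := h3.neg_neg
        rw [neg_sub, neg_sub] at h4
        exact h4
      · intro l hl
        rw [Finset.mem_range] at hl
        have h3 : (X - C (y n l)) ∣ N := by
          rw [Polynomial.dvd_iff_isRoot]
          exact h1 l (by omega)
        rw [← neg_sub, neg_dvd]
        exact h3
    have hstar0 : aeval (Y n k) N (star k T) = 0 := by
      obtain ⟨R, hR⟩ := hdvd
      rw [hR, mul_comm, map_mul, Module.End.mul_apply, H60.sta H59.str n k t T hT, map_zero]
    have hBint : ∀ F ∈ (Finset.univ.filter fun F : KS n k => T ⊆ F.1),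
        ∀ G ∈ (Finset.univ.filter fun F : KS n k => T ⊆ F.1), t ≤ (F.1 ∩ G.1).card := by
      intro F hF G hG
      rw [← hT]
      exact Finset.card_le_card (Finset.subset_inter (Finset.mem_filter.1 hF).2
        (Finset.mem_filter.1 hG).2)
    have hst := hip _ hBint
    rw [← H33.star_eq_ind, hstar0, H33.ip_zero] at hst
    linarith
  · intro hpm A hA
    have hinj : Set.InjOn (y n) (Finset.range (k + 1) : Finset ℕ) := by
      intro a ha b hb hab
      rw [Finset.mem_coe, Finset.mem_range] at ha hb
      rcases Nat.lt_trichotomy a b with h | h | h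
      · exact absurd hab (H33.y_lt hn h (by omega)).ne
      · exact h
      · exact absurd hab (H33.y_lt hn h (by omega)).ne'
    have hpos : 0 ≤ ip (ind A) (aeval (Y n k) N (ind A)) := by
      refine H56.spe (KS n k) (Y n k) (fun f g => H77.sym n k f g) (Finset.range (k + 1)) (y n) hinj
        (H94.ann H59.mpo' n k) N (fun l hl => ?_) (ind A)
      rw [Finset.mem_range] at hl
      rcases Nat.lt_or_ge t l with h | h
      · rw [hev l (by omega), hQev]
        obtain ⟨hodd, heven⟩ := hpm l h (by omega)
        rcases Nat.even_or_odd (l + t) with he | ho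
        · have h2 := heven he
          have h3 : ∑ i ∈ Finset.Icc 1 t, (m.eval (y n i) - α) * H33.EE n k t l i =
              (∑ i ∈ Finset.Icc 1 t, cc n k t l i * m.eval (y n i)) - α * th n k t l := by
            unfold th
            rw [Finset.mul_sum, ← Finset.sum_sub_distrib]
            refine Finset.sum_congr rfl fun i hi => ?_
            rw [H33.EE_pos hn htk h (by omega) hi, he.neg_one_pow]
            ring
          rw [h3]
          linarith
        · have h2 := hodd ho
          have h3 : ∑ i ∈ Finset.Icc 1 t, (m.eval (y n i) - α) * H33.EE n k t l i =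
              α * th n k t l - (∑ i ∈ Finset.Icc 1 t, cc n k t l i * m.eval (y n i)) := by
            unfold th
            rw [Finset.mul_sum, ← Finset.sum_sub_distrib]
            refine Finset.sum_congr rfl fun i hi => ?_
            rw [H33.EE_pos hn htk h (by omega) hi, ho.neg_one_pow]
            ring
          rw [h3]
          linarith
      · exact (h1 l h).ge
    rw [hip A hA, H33.ip_ind] at hpos
    linarith

end Pool.Agent.DPL.H23
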